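import Pool.Agent.L0h94.RZ.Defs

/-!
# Project RZ: basic facts on the bits and the classes
-/

set_option autoImplicit false

namespace Pool.Agent.L0h94.RZ

open Finset Pool.Agent.W262.RK

lemma js_pm {p : ℕ} (hp : p.Prime) {a : ℤ} (ha : ¬ (p : ℤ) ∣ a) :
    jacobiSym a p = 1 ∨ jacobiSym a p = -1 := by
  apply jacobiSym.eq_one_or_neg_one
  rw [Int.gcd_comm]
  exact Int.isCoprime_iff_gcd_eq_one.1
    ((Nat.prime_iff_prime_int.1 hp).coprime_iff_not_dvd.2 ha)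

/-- symbols and bits -/
lemma js_nr {p : ℕ} (hp : p.Prime) {a : ℤ} (ha : ¬ (p : ℤ) ∣ a) :
    (jacobiSym a p = 1 ∧ nr p a = 0) ∨ (jacobiSym a p = -1 ∧ nr p a = 1) := by
  rcases js_pm hp ha with h | h
  · left
    refine ⟨h, ?_⟩
    unfold nr
    rw [h]
    norm_num
  · right
    refine ⟨h, ?_⟩
    unfold nr
    rw [h]
    norm_num

lemma nr_mul {p : ℕ} (hp : p.Prime) {a b : ℤ} (ha : ¬ (p : ℤ) ∣ a) (hb : ¬ (p : ℤ) ∣ b) :
    nr p (a * b) = nr p a + nr p b := by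
  have h3 : jacobiSym (a * b) p = jacobiSym a p * jacobiSym b p := jacobiSym.mul_left a b p
  have hab : ¬ (p : ℤ) ∣ a * b := fun h =>
    ((Nat.prime_iff_prime_int.1 hp).dvd_or_dvd h).elim ha hb
  rcases js_nr hp ha with ⟨h1, h1'⟩ | ⟨h1, h1'⟩ <;> rcases js_nr hp hb with ⟨h2, h2'⟩ | ⟨h2, h2'⟩ <;>
    rcases js_nr hp hab with ⟨h4, h4'⟩ | ⟨h4, h4'⟩ <;> rw [h1, h2, h4] at h3 <;>
    rw [h1', h2', h4'] <;> first | (exfalso; norm_num at h3; done) | decide

lemma nr_congr {p : ℕ} {a b : ℤ} (h : a ≡ b [ZMOD p]) : nr p a = nr p b := by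
  unfold nr
  rw [jacobiSym.mod_left a p, jacobiSym.mod_left b p, h]

/-- bits modulo `p`, from divisibility of the difference -/
lemma nr_congr' {p : ℕ} {a b : ℤ} (h : (p : ℤ) ∣ a - b) : nr p a = nr p b :=
  nr_congr (Int.modEq_iff_dvd.2 (by rw [← neg_sub]; exact (dvd_neg.2 h)))

lemma nr_one (p : ℕ) : nr p 1 = 0 := by
  unfold nr
  rw [jacobiSym.one_left]
  norm_num

lemma nr_sq {p : ℕ} (hp : p.Prime) {a : ℤ} (ha : ¬ (p : ℤ) ∣ a) : nr p (a * a) = 0 := by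
  rw [nr_mul hp ha ha]
  exact CharTwo.add_self_eq_zero _

lemma not_dvd_of_dvd_mul {p : ℕ} {a b : ℤ} (h : ¬ (p : ℤ) ∣ a * b) :
    ¬ (p : ℤ) ∣ a ∧ ¬ (p : ℤ) ∣ b :=
  ⟨fun h1 => h (h1.mul_right _), fun h1 => h (h1.mul_left _)⟩

lemma not_dvd_neg_one {p : ℕ} (hp : p.Prime) : ¬ (p : ℤ) ∣ -1 := by
  intro h
  have h1 : (p : ℤ) ∣ ((1 : ℕ) : ℤ) := by
    have := (dvd_neg (a := (p : ℤ)) (b := 1)).1 h
    exact_mod_cast this
  exact hp.one_lt.ne' (Nat.dvd_one.1 (Int.natCast_dvd_natCast.1 h1))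

lemma nr_neg {p : ℕ} (hp : p.Prime) {a : ℤ} (ha : ¬ (p : ℤ) ∣ a) : nr p (-a) = lam p + nr p a := by
  have : -a = (-1) * a := by ring
  rw [this, nr_mul hp (not_dvd_neg_one hp) ha]
  rfl

lemma not_dvd_four {p : ℕ} (hp : p.Prime) (h2 : p ≠ 2) : ¬ (p : ℤ) ∣ 4 := by
  intro h
  have h1 : p ∣ 2 ^ 2 := by exact_mod_cast h
  exact h2 ((Nat.prime_dvd_prime_iff_eq hp Nat.prime_two).1 (hp.dvd_of_dvd_pow h1))

lemma nr_four {p : ℕ} (hp : p.Prime) (h2 : p ≠ 2) {a : ℤ} (ha : ¬ (p : ℤ) ∣ a) :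
    nr p (4 * a) = nr p a := by
  have h4 : nr p 4 = 0 := by
    have h3 : ¬ (p : ℤ) ∣ 2 := fun h => not_dvd_four hp h2 (h.trans (by norm_num))
    have := nr_sq hp h3
    norm_num at this
    exact this
  rw [nr_mul hp (not_dvd_four hp h2) ha, h4, zero_add]

lemma odd_mod4 {n : ℕ} (h : Odd n) : n % 4 = 1 ∨ n % 4 = 3 := by
  rcases h with ⟨k, hk⟩
  omega

lemma prime_odd {p : ℕ} (hp : p.Prime) (h2 : p ≠ 2) : Odd p := hp.odd_of_ne_two h2

lemma lam_eq {p : ℕ} (h : Odd p) : lam p = if p % 4 = 3 then 1 else 0 := by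
  unfold lam nr
  rw [jacobiSym.at_neg_one h]
  rcases odd_mod4 h with h1 | h1
  · rw [ZMod.χ₄_nat_one_mod_four h1, h1]
    norm_num
  · rw [ZMod.χ₄_nat_three_mod_four h1, h1]
    norm_num

lemma not_dvd_prime {p q : ℕ} (hp : p.Prime) (hq : q.Prime) (h : p ≠ q) : ¬ (p : ℤ) ∣ (q : ℤ) :=
  fun h1 => h ((Nat.prime_dvd_prime_iff_eq hp hq).1 (Int.natCast_dvd_natCast.1 h1))

/-- reciprocity -/
lemma nr_rec {p q : ℕ} (hp : p.Prime) (hq : q.Prime) (hp2 : p ≠ 2) (hq2 : q ≠ 2) (h : p ≠ q) :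
    nr p q + nr q p = lam p * lam q := by
  have hpo := prime_odd hp hp2
  have hqo := prime_odd hq hq2
  rw [lam_eq hpo, lam_eq hqo]
  have h1 := js_nr hp (not_dvd_prime hp hq h)
  have h2 := js_nr hq (not_dvd_prime hq hp h.symm)
  rcases odd_mod4 hpo with hp4 | hp4
  · have h3 := jacobiSym.quadratic_reciprocity_one_mod_four' hqo hp4
    rw [if_neg (by omega), zero_mul]
    rcases h1 with ⟨h1, h1'⟩ | ⟨h1, h1'⟩ <;> rcases h2 with ⟨h2, h2'⟩ | ⟨h2, h2'⟩ <;>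
      rw [h1', h2'] <;> rw [h1, h2] at h3 <;>
      first | (exfalso; norm_num at h3; done) | (norm_num; done) | decide
  · rcases odd_mod4 hqo with hq4 | hq4
    · have h3 := jacobiSym.quadratic_reciprocity_one_mod_four' hpo hq4
      rw [if_neg (show ¬ q % 4 = 3 by omega), mul_zero]
      rcases h1 with ⟨h1, h1'⟩ | ⟨h1, h1'⟩ <;> rcases h2 with ⟨h2, h2'⟩ | ⟨h2, h2'⟩ <;>
        rw [h1', h2'] <;> rw [h1, h2] at h3 <;>
        first | (exfalso; norm_num at h3; done) | (norm_num; done) | decide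
    · have h3 := jacobiSym.quadratic_reciprocity_three_mod_four hp4 hq4
      rw [if_pos hp4, if_pos hq4]
      rcases h1 with ⟨h1, h1'⟩ | ⟨h1, h1'⟩ <;> rcases h2 with ⟨h2, h2'⟩ | ⟨h2, h2'⟩ <;>
        rw [h1', h2'] <;> rw [h1, h2] at h3 <;>
        first | (exfalso; norm_num at h3; done) | norm_num

lemma lam_mod1 {p : ℕ} (h : p % 4 = 1) : lam p = 0 := by
  rw [lam_eq (Nat.odd_iff.2 (by omega)), if_neg (by omega)]

lemma lam_mul_self (p : ℕ) : lam p * lam p = lam p := by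
  unfold lam nr
  split_ifs <;> decide

/-- the bit of a product -/
lemma nr_prod {p : ℕ} (hp : p.Prime) (S : Finset ℕ) (f : ℕ → ℕ) (h : ∀ q ∈ S, ¬ p ∣ f q) :
    nr p ((∏ q ∈ S, f q : ℕ) : ℤ) = ∑ q ∈ S, nr p (f q) := by
  classical
  induction S using Finset.induction_on with
  | empty => simp [nr_one]
  | insert a S ha ih =>
    rw [prod_insert ha, sum_insert ha, ← ih (fun q hq => h q (mem_insert_of_mem hq))]
    push_cast
    have h1 : ¬ (p : ℤ) ∣ (f a : ℤ) := fun h2 =>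
      h a (mem_insert_self a S) (Int.natCast_dvd_natCast.1 h2)
    have h2 : ¬ (p : ℤ) ∣ ∏ q ∈ S, (f q : ℤ) := by
      intro h3
      obtain ⟨q, hq, h4⟩ := (Nat.prime_iff_prime_int.1 hp).dvd_finsetProd_iff _ |>.1 h3
      exact h q (mem_insert_of_mem hq) (Int.natCast_dvd_natCast.1 h4)
    exact nr_mul hp h1 h2

/-- the bit of a squarefree number is the sum over its primes -/
lemma nr_sum {p N : ℕ} (hp : p.Prime) (hN : Squarefree N) (h : ¬ p ∣ N) :
    nr p (N : ℤ) = ∑ q ∈ N.primeFactors, nr p (q : ℤ) := by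
  conv_lhs => rw [← Nat.prod_primeFactors_of_squarefree hN]
  exact nr_prod hp _ (fun q => q) (fun q hq h1 =>
    h (h1.trans (Nat.dvd_of_mem_primeFactors hq)))

/-- the number of the primes `3` modulo 4 -/
lemma lam_sum {N : ℕ} (hN : Squarefree N) (ho : Odd N) :
    ∑ q ∈ N.primeFactors, lam q = if N % 4 = 3 then 1 else 0 := by
  have key : ∀ S : Finset ℕ, (∀ q ∈ S, Odd q) →
      ∑ q ∈ S, lam q = (if (∏ q ∈ S, q) % 4 = 3 then 1 else 0 : ZMod 2) ∧ Odd (∏ q ∈ S, q) := by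
    classical
    intro S
    induction S using Finset.induction_on with
    | empty => intro _; simp
    | insert a S ha ih =>
      intro h
      obtain ⟨h1, h2⟩ := ih (fun q hq => h q (mem_insert_of_mem hq))
      have h3 := h a (mem_insert_self a S)
      rw [prod_insert ha, sum_insert ha, h1, lam_eq h3]
      refine ⟨?_, h3.mul h2⟩
      rcases odd_mod4 h3 with h4 | h4 <;> rcases odd_mod4 h2 with h5 | h5 <;>
        rw [Nat.mul_mod, h4, h5] <;> decide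
  have h1 := (key N.primeFactors (fun q hq =>
    ho.of_dvd_nat (Nat.dvd_of_mem_primeFactors hq))).1
  rw [h1, Nat.prod_primeFactors_of_squarefree hN]

/-! ### the classes -/

section gd

variable {u b w : ℕ} (g : Gd u b w)

include g

lemma Gd.squ : Squarefree u := g.sq.of_mul_left.of_mul_left
lemma Gd.sqb : Squarefree b := g.sq.of_mul_left.of_mul_right
lemma Gd.sqw : Squarefree w := g.sq.of_mul_right

lemma Gd.cub : u.Coprime b := (Nat.squarefree_mul_iff.1 g.sq.of_mul_left).1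
lemma Gd.cubw : (u * b).Coprime w := (Nat.squarefree_mul_iff.1 g.sq).1
lemma Gd.cuw : u.Coprime w := Nat.Coprime.coprime_mul_right g.cubw
lemma Gd.cbw : b.Coprime w := Nat.Coprime.coprime_mul_left g.cubw

lemma Gd.u4 : u % 4 = 3 := by have := g.hu; omega
lemma Gd.w4 : w % 4 = 3 := by have := g.hw; omega
lemma Gd.b4 : b % 4 = 3 := by have := g.hu; have := g.hb; omega
lemma Gd.ou : Odd u := Nat.odd_iff.2 (by have := g.u4; omega)
lemma Gd.ow : Odd w := Nat.odd_iff.2 (by have := g.w4; omega)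
lemma Gd.ob : Odd b := Nat.odd_iff.2 (by have := g.b4; omega)
lemma Gd.oP : Odd (u * b * w) := (g.ou.mul g.ob).mul g.ow
lemma Gd.u0 : u ≠ 0 := by have := g.hu; omega
lemma Gd.w0 : w ≠ 0 := by have := g.hw; omega
lemma Gd.b0 : b ≠ 0 := by have := g.b4; omega
lemma Gd.P0 : u * b * w ≠ 0 := mul_ne_zero (mul_ne_zero g.u0 g.b0) g.w0

lemma Gd.p2 {p : ℕ} (hp : p ∈ (u * b * w).primeFactors) : p ≠ 2 := by
  rintro rfl
  have h1 := Nat.dvd_of_mem_primeFactors hp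
  have h2 := Nat.odd_iff.1 g.oP
  omega

lemma Gd.cl0 : (u * b * w).primeFactors.filter (fun q => clf u b q = 0) = u.primeFactors := by
  ext p
  rw [mem_filter, Nat.mem_primeFactors, Nat.mem_primeFactors]
  unfold clf
  constructor
  · rintro ⟨⟨h1, h2, h3⟩, h4⟩
    by_cases h5 : p ∣ u
    · exact ⟨h1, h5, g.u0⟩
    · rw [if_neg h5] at h4
      split_ifs at h4
      · exact absurd h4 (by decide)
      · exact absurd h4 (by decide)
  · rintro ⟨h1, h2, h3⟩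
    exact ⟨⟨h1, (h2.mul_right b).mul_right w, g.P0⟩, by rw [if_pos h2]⟩

lemma Gd.cl1 : (u * b * w).primeFactors.filter (fun q => clf u b q = 1) = b.primeFactors := by
  ext p
  rw [mem_filter, Nat.mem_primeFactors, Nat.mem_primeFactors]
  unfold clf
  constructor
  · rintro ⟨⟨h1, h2, h3⟩, h4⟩
    by_cases h5 : p ∣ u
    · rw [if_pos h5] at h4
      exact absurd h4 (by decide)
    · rw [if_neg h5] at h4
      by_cases h6 : p ∣ b
      · exact ⟨h1, h6, g.b0⟩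
      · rw [if_neg h6] at h4
        exact absurd h4 (by decide)
  · rintro ⟨h1, h2, h3⟩
    have h5 : ¬ p ∣ u := fun h => h1.one_lt.ne' (Nat.dvd_one.1 (g.cub ▸ Nat.dvd_gcd h h2))
    exact ⟨⟨h1, (h2.mul_left u).mul_right w, g.P0⟩, by rw [if_neg h5, if_pos h2]⟩

lemma Gd.cl2 : (u * b * w).primeFactors.filter (fun q => clf u b q = 2) = w.primeFactors := by
  ext p
  rw [mem_filter, Nat.mem_primeFactors, Nat.mem_primeFactors]
  unfold clf
  constructor
  · rintro ⟨⟨h1, h2, h3⟩, h4⟩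
    by_cases h5 : p ∣ u
    · rw [if_pos h5] at h4
      exact absurd h4 (by decide)
    · rw [if_neg h5] at h4
      by_cases h6 : p ∣ b
      · rw [if_pos h6] at h4
        exact absurd h4 (by decide)
      · refine ⟨h1, ?_, g.w0⟩
        rcases (h1.dvd_mul.1 h2) with h | h
        · rcases (h1.dvd_mul.1 h) with h | h
          · exact absurd h h5
          · exact absurd h h6
        · exact h
  · rintro ⟨h1, h2, h3⟩
    have h5 : ¬ p ∣ u := fun h => h1.one_lt.ne' (Nat.dvd_one.1 (g.cuw ▸ Nat.dvd_gcd h h2))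
    have h6 : ¬ p ∣ b := fun h => h1.one_lt.ne' (Nat.dvd_one.1 (g.cbw ▸ Nat.dvd_gcd h h2))
    exact ⟨⟨h1, h2.mul_left _, g.P0⟩, by rw [if_neg h5, if_neg h6]⟩

/-- the three cases for a prime -/
lemma Gd.cases {p : ℕ} (hp : p ∈ (u * b * w).primeFactors) :
    (p ∣ u ∧ ¬ p ∣ b ∧ ¬ p ∣ w ∧ clf u b p = 0) ∨ (¬ p ∣ u ∧ p ∣ b ∧ ¬ p ∣ w ∧ clf u b p = 1) ∨
      (¬ p ∣ u ∧ ¬ p ∣ b ∧ p ∣ w ∧ clf u b p = 2) := by
  have h1 := Nat.prime_of_mem_primeFactors hp
  have h2 := Nat.dvd_of_mem_primeFactors hp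
  have c1 : ¬ (p ∣ u ∧ p ∣ b) := fun h => h1.one_lt.ne' (Nat.dvd_one.1 (g.cub ▸ Nat.dvd_gcd h.1 h.2))
  have c2 : ¬ (p ∣ u ∧ p ∣ w) := fun h => h1.one_lt.ne' (Nat.dvd_one.1 (g.cuw ▸ Nat.dvd_gcd h.1 h.2))
  have c3 : ¬ (p ∣ b ∧ p ∣ w) := fun h => h1.one_lt.ne' (Nat.dvd_one.1 (g.cbw ▸ Nat.dvd_gcd h.1 h.2))
  unfold clf
  by_cases hu : p ∣ u
  · left
    exact ⟨hu, fun h => c1 ⟨hu, h⟩, fun h => c2 ⟨hu, h⟩, if_pos hu⟩
  · right
    by_cases hb : p ∣ b
    · left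
      exact ⟨hu, hb, fun h => c3 ⟨hb, h⟩, by rw [if_neg hu, if_pos hb]⟩
    · right
      refine ⟨hu, hb, ?_, by rw [if_neg hu, if_neg hb]⟩
      rcases (h1.dvd_mul.1 h2) with h | h
      · rcases (h1.dvd_mul.1 h) with h | h
        · exact absurd h hu
        · exact absurd h hb
      · exact h

end gd

/-- the matrix is symmetric -/
lemma en_symm (o : Bool) (cl : ℕ → Fin 3) (τ : ℕ → ZMod 2) (p q : ℕ) :
    en o cl τ p q = en o cl τ q p := by
  unfold en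
  by_cases h : p = q
  · subst h
    rfl
  · rw [if_neg h, if_neg (Ne.symm h)]
    by_cases h1 : cl p = cl q
    · rw [if_pos h1, if_pos h1.symm, h1, mul_comm]
    · rw [if_neg h1, if_neg (Ne.symm h1)]
      have h2 : decide (cl q < cl p) = !decide (cl p < cl q) := by
        rcases lt_or_gt_of_ne h1 with h3 | h3
        · rw [decide_eq_true h3, decide_eq_false (not_lt.2 h3.le)]
          rfl
        · rw [decide_eq_true h3, decide_eq_false (not_lt.2 h3.le)]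
          rfl
      rw [h2]
      cases decide (cl p < cl q) <;> cases o <;> simp

/-- the kernel depends only on the entries in `S` -/
lemma KerE_congr {S : Finset ℕ} {e e' : ℕ → ℕ → ZMod 2} (h : ∀ p ∈ S, ∀ q ∈ S, e p q = e' p q) :
    KerE S e = KerE S e' := by
  ext v
  show ((∀ p, p ∉ S → v p = 0) ∧ ∀ p ∈ S, ∑ q ∈ S, e p q * v q = 0) ↔
    ((∀ p, p ∉ S → v p = 0) ∧ ∀ p ∈ S, ∑ q ∈ S, e' p q * v q = 0)
  refine and_congr_right fun _ => forall₂_congr fun p hp => ?_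
  rw [sum_congr rfl fun q hq => by rw [h p hp q hq]]

/-- the corank depends only on the values in `S` -/
lemma cork_congr {o : Bool} {S : Finset ℕ} {cl cl' : ℕ → Fin 3} {τ τ' : ℕ → ZMod 2}
    (h1 : ∀ p ∈ S, cl p = cl' p) (h2 : ∀ p ∈ S, τ p = τ' p) : cork o S cl τ = cork o S cl' τ' := by
  unfold cork
  rw [KerE_congr fun p hp q hq => ?_]
  unfold en
  rw [h1 p hp, h1 q hq, h2 p hp]

end Pool.Agent.L0h94.RZ
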