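import Mathlib
import Pool.Agent.W262.RK.Defs

/-!
# Project RZ: a positive proportion of all elliptic curves with full rational 2-torsion, ordered by
height, has rank 0. Definitions and statements of the parts (paper proofs: docs table, `RZ_blueprint`)
-/

set_option autoImplicit false

namespace Pool.Agent.L0h94.RZ

open Finset Pool.Agent.W262.RK

/-- `1` if the Jacobi symbol `(q / p)` is `-1`, otherwise `0` -/
def nr (p : ℕ) (q : ℤ) : ZMod 2 := if jacobiSym q p = -1 then 1 else 0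

/-- `1` if `-1` is a nonresidue modulo the odd prime `p` -/
def lam (p : ℕ) : ZMod 2 := nr p (-1)

/-- the triples that we use -/
structure Gd (u b w : ℕ) : Prop where
  hb : b = u + 4 * w
  sq : Squarefree (u * b * w)
  hu : u % 48 = 7
  hw : w % 12 = 7

/-- the second root; the curves are `y² = x (x - 4w) (x - b)` and `y² = x (x - u) (x - b)` -/
def mo (o : Bool) (u w : ℕ) : ℤ := if o then (u : ℤ) else 4 * (w : ℤ)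

/-- `e` is a squarefree integer in the square class of `x` -/
def Rp (x : ℚ) (e : ℤ) : Prop := Squarefree e ∧ IsSquare (x * (e : ℚ))

/-! ### the matrices -/

/-- the class of a prime divisor of `A * B * C`: does it divide `A`, `B` or `C`? -/
def clf (A B p : ℕ) : Fin 3 := if p ∣ A then 0 else if p ∣ B then 1 else 2

/-- the diagonal bits -/
def tf (u b w p : ℕ) : ZMod 2 :=
  if p ∣ u then nr p b else if p ∣ b then nr p w else nr p (-(b : ℤ))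

/-- the entries of the matrix of the curve `o` -/
def en (o : Bool) (cl : ℕ → Fin 3) (τ : ℕ → ZMod 2) (p q : ℕ) : ZMod 2 :=
  if p = q then τ p + (if o then lam p else 0)
  else if cl p = cl q then (if cl p = 1 then lam p * lam q else 0)
  else if xor (decide (cl p < cl q)) o then nr p q else nr q p

/-- the kernel of the matrix `e` with rows and columns in `S` -/
def KerE (S : Finset ℕ) (e : ℕ → ℕ → ZMod 2) : Submodule (ZMod 2) (ℕ → ZMod 2) where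
  carrier := {v | (∀ p, p ∉ S → v p = 0) ∧ ∀ p ∈ S, ∑ q ∈ S, e p q * v q = 0}
  add_mem' := by
    rintro v v' ⟨h1, h2⟩ ⟨h1', h2'⟩
    refine ⟨fun p hp => ?_, fun p hp => ?_⟩
    · simp [h1 p hp, h1' p hp]
    · simp only [Pi.add_apply, mul_add, sum_add_distrib, h2 p hp, h2' p hp, add_zero]
  zero_mem' := ⟨fun _ _ => rfl, fun _ _ => by simp⟩
  smul_mem' := by
    rintro c v ⟨h1, h2⟩
    refine ⟨fun p hp => ?_, fun p hp => ?_⟩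
    · simp [h1 p hp]
    · simp only [Pi.smul_apply, smul_eq_mul, mul_left_comm _ c, ← mul_sum, h2 p hp, mul_zero]

/-- the corank of the matrix of the curve `o` -/
noncomputable def cork (o : Bool) (S : Finset ℕ) (cl : ℕ → Fin 3) (τ : ℕ → ZMod 2) : ℕ :=
  Module.finrank (ZMod 2) (KerE S (en o cl τ))

/-- the indicator function of a set of primes -/
def ind (E : Finset ℕ) (p : ℕ) : ZMod 2 := if p ∈ E then 1 else 0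

/-- the corank of a state: `s` contains the small parts of `u`, `b`, `w`, and `E` contains the primes
with bit `1` -/
noncomputable def corkS (o : Bool) (s : Fin 3 → ℕ) (E : Finset ℕ) : ℕ :=
  cork o (∏ i, s i).primeFactors (clf (s 0) (s 1)) (ind E)

/-! ### arithmetic of one curve -/

/-- (1) the local conditions at infinity and at 2 -/
def S_LOC2 : Prop := ∀ (o : Bool) (u b w : ℕ), Gd u b w → ∀ (x y : ℚ) (e1 e2 e3 : ℤ), y ≠ 0 →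
  y ^ 2 = x * (x - mo o u w) * (x - b) → Rp x e1 → Rp (x - mo o u w) e2 → Rp (x - b) e3 →
  0 < e1 ∧ 0 < e2 * e3 ∧ Odd e1 ∧ Odd e2 ∧ Odd e3 ∧ e3 % 4 = 1

/-- the local conditions at the odd primes -/
def LP (o : Bool) (u b w : ℕ) (e1 e2 e3 : ℤ) : Prop :=
  (∀ p : ℕ, p.Prime → p ≠ 2 → ¬ p ∣ u * b * w → ¬ (p : ℤ) ∣ e1 ∧ ¬ (p : ℤ) ∣ e2 ∧ ¬ (p : ℤ) ∣ e3) ∧
  (∀ p : ℕ, p.Prime → p ≠ 2 → (p : ℤ) ∣ mo o u w → ¬ (p : ℤ) ∣ e3 ∧ ((p : ℤ) ∣ e1 ↔ (p : ℤ) ∣ e2) ∧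
    nr p e3 = if (p : ℤ) ∣ e1 then nr p (-(b : ℤ)) else 0) ∧
  (∀ p : ℕ, p.Prime → p ≠ 2 → p ∣ b → ¬ (p : ℤ) ∣ e2 ∧ ((p : ℤ) ∣ e1 ↔ (p : ℤ) ∣ e3) ∧
    nr p e2 = if (p : ℤ) ∣ e1 then nr p (-(mo o u w)) else 0) ∧
  (∀ p : ℕ, p.Prime → p ≠ 2 → (p : ℤ) ∣ (b : ℤ) - mo o u w → ¬ (p : ℤ) ∣ e1 ∧
    ((p : ℤ) ∣ e2 ↔ (p : ℤ) ∣ e3) ∧ nr p e1 = if (p : ℤ) ∣ e2 then nr p (mo o u w) else 0)

/-- (2) the local conditions at the odd primes -/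
def S_LOCP : Prop := ∀ (o : Bool) (u b w : ℕ), Gd u b w → ∀ (x y : ℚ) (e1 e2 e3 : ℤ), y ≠ 0 →
  y ^ 2 = x * (x - mo o u w) * (x - b) → Rp x e1 → Rp (x - mo o u w) e2 → Rp (x - b) e3 →
  LP o u b w e1 e2 e3

/-- all local conditions -/
def LA (o : Bool) (u b w : ℕ) (e1 e2 e3 : ℤ) : Prop :=
  Squarefree e1 ∧ Squarefree e2 ∧ Squarefree e3 ∧ 0 < e1 ∧ 0 < e2 * e3 ∧ Odd e1 ∧ Odd e2 ∧ Odd e3 ∧
    e3 % 4 = 1 ∧ LP o u b w e1 e2 e3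

open Classical in
/-- the vector of a pair of square classes -/
noncomputable def vec (u b w : ℕ) (e1 e2 : ℤ) (p : ℕ) : ZMod 2 :=
  if p ∈ (u * b * w).primeFactors ∧ ((p : ℤ) ∣ e1 ∨ (p : ℤ) ∣ e2) then 1 else 0

/-- (3) the vector is in the kernel and determines the square classes -/
def S_KER : Prop := ∀ (o : Bool) (u b w : ℕ), Gd u b w →
  (∀ e1 e2 e3 : ℤ, LA o u b w e1 e2 e3 →
    vec u b w e1 e2 ∈ KerE (u * b * w).primeFactors (en o (clf u b) (tf u b w))) ∧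
  ∀ e1 e2 e3 e1' e2' e3' : ℤ, LA o u b w e1 e2 e3 → LA o u b w e1' e2' e3' →
    vec u b w e1 e2 = vec u b w e1' e2' → e1 = e1' ∧ e2 = e2' ∧ e3 = e3'

/-- (4) a group of positive rank with full 2-torsion has at least 8 cosets modulo `2 G`, and all
of them are infinite -/
def S_GRP : Prop := ∀ (G : Type) [AddCommGroup G], AddGroup.FG G → Module.finrank ℤ G ≠ 0 →
  (∃ T : Finset G, T.card = 4 ∧ ∀ t ∈ T, t + t = 0) → ∀ F : Set G, F.Finite →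
  ∃ g : Fin 8 → G, (∀ i, g i ∉ F) ∧ ∀ i j, (∃ q : G, g i = g j + (q + q)) → i = j

/-- (5) the 2-descent -/
def S_DESC : Prop := ∀ (o : Bool) (u b w : ℕ), Gd u b w →
  Module.finrank ℤ (EAB (mo o u w) b).toAffine.Point ≠ 0 →
  3 ≤ cork o (u * b * w).primeFactors (clf u b) (tf u b w)

/-- (6) the sum of a row over each class is the diagonal entry -/
def S_ROWS : Prop := ∀ (o : Bool) (u b w : ℕ), Gd u b w → ∀ χ : Fin 3,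
  ∀ p ∈ (u * b * w).primeFactors,
    ∑ q ∈ (u * b * w).primeFactors.filter (fun q => clf u b q = χ), en o (clf u b) (tf u b w) p q =
      en o (clf u b) (tf u b w) p p

/-- (7) parity of the corank of a symmetric matrix over `F₂` whose row sums are the diagonal -/
def S_SYM : Prop := ∀ (S : Finset ℕ) (e : ℕ → ℕ → ZMod 2), (∀ p ∈ S, ∀ q ∈ S, e p q = e q p) →
  (∀ p ∈ S, ∑ q ∈ S, e p q = e p p) →
  ((Module.finrank (ZMod 2) (KerE S e) : ℕ) : ZMod 2) = (S.card : ZMod 2) + ∑ p ∈ S, e p p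

/-- the triples for which one of the two curves will have rank 0: without one prime of each class
both matrices are nonsingular -/
def Ok (u b w : ℕ) : Prop := Gd u b w ∧ ∃ p q r : ℕ, p.Prime ∧ q.Prime ∧ r.Prime ∧ p ∣ u ∧ q ∣ b ∧
  r ∣ w ∧ ∀ o, cork o ((u * b * w).primeFactors \ {p, q, r}) (clf u b) (tf u b w) = 0

/-- (8) one of the two curves has rank 0 -/
def S_ZERO : Prop := ∀ (u b w : ℕ), Ok u b w →
  ∃ o, Module.finrank ℤ (EAB (mo o u w) b).toAffine.Point = 0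

/-! ### steering -/

/-- (9) one more prime reduces both coranks -/
def S_STEER : Prop := ∀ (S : Finset ℕ) (cl : ℕ → Fin 3) (τ : ℕ → ZMod 2),
  (∀ p ∈ S, p.Prime ∧ p ≠ 2) → ¬ (cork false S cl τ = 0 ∧ cork true S cl τ = 0) →
  ∃ (χ : Fin 3) (T : Bool → Finset ℕ), (∀ o, (T o).Nonempty ∧ T o ⊆ S) ∧
    ∀ l : ℕ, l.Prime → l ∉ S → l % 8 = 1 → (∀ o, ∑ p ∈ T o, nr p l = 1) →
    ∃ d : ZMod 2, ∀ o, cork o (insert l S) (Function.update cl l χ) (Function.update τ l d) =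
      cork o S cl τ - 1

/-! ### the average of the coranks -/

/-- the links of the 9 labels: the first component is the class; the second component is `0` for
the chosen primes, `1` for the primes without symbol, `2` for the primes with symbol -/
def LL (o : Bool) (i j : Fin 3 × Fin 3) : Bool :=
  decide (i.1 ≠ j.1) &&
    ((decide (i.2 = 0) && decide (j.2 = 2) && xor (decide (j.1 < i.1)) o) ||
     (decide (i.2 = 2) && decide (j.2 = 0) && !(xor (decide (i.1 < j.1)) o)))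

/-- the sign of the labels of class 1 -/
def sg1 (d : Fin 3 × Fin 3 → ℕ) : ℝ := if d (1, 0) % 4 = 3 ∧ d (1, 2) % 4 = 3 then -1 else 1

/-- (10) the average of `2 ^ corank` over the bits as a sum of symbols -/
def S_AVG : Prop := ∀ (o : Bool) (z y : ℕ), 2 ≤ z →
  ∑ s ∈ Tup (Fin 3) z y, (1 / ((∏ i, s i : ℕ) : ℝ)) * ((1 / 2) ^ (∏ i, s i).primeFactors.card *
      ∑ E ∈ (∏ i, s i).primeFactors.powerset, (2 : ℝ) ^ corkS o s E) =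
    ∑ d ∈ Tup (Fin 3 × Fin 3) z y, (∏ i, (1 / 2 : ℝ) ^ (d i).primeFactors.card / (d i)) *
      (sg1 d * Sym (LL o) (fun _ => 1) d)

/-- (11) the average of `2 ^ corank` is bounded -/
def S_SM : Prop := ∃ z0 : ℕ, ∀ z, z0 ≤ z → ∃ C : ℝ, ∀ (o : Bool) (y : ℕ), z < y →
  ∑ s ∈ Tup (Fin 3) z y, (1 / ((∏ i, s i : ℕ) : ℝ)) * ((1 / 2) ^ (∏ i, s i).primeFactors.card *
      ∑ E ∈ (∏ i, s i).primeFactors.powerset, (2 : ℝ) ^ corkS o s E) ≤ C * Real.log y ^ 3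

/-- a sparse set of large numbers -/
def Sp (A : ℕ) (ρ : ℝ) (X : ℕ) (D : Finset ℕ) : Prop := (∀ e ∈ D, Real.log X ^ A < (e : ℝ)) ∧
  ∀ x : ℕ, ((D.filter (fun e => e ≤ x)).card : ℝ) ≤ (x : ℝ) ^ ρ

/-- no element of `D` divides `n` -/
def Cln (D : Finset ℕ) (n : ℕ) : Prop := ∀ e ∈ D, ¬ e ∣ n

open Classical in
/-- (12) the mass of the states with bounded coranks -/
def S_MASS : Prop := ∃ K : ℕ, ∀ δ : ℝ, 0 < δ → ∃ c : ℝ, 0 < c ∧ ∃ X0 : ℕ, ∀ X : ℕ, X0 ≤ X →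
  ∃ y : ℕ, (y : ℝ) ≤ (X : ℝ) ^ δ ∧ ∀ D : Finset ℕ, Sp 20 (1 / 4) X D →
    c * Real.log X ^ 3 ≤
      ∑ s ∈ (Tup (Fin 3) 3 y).filter (fun s => ((∏ i, s i : ℕ) : ℝ) ≤ (X : ℝ) ^ δ ∧
        (2 : ℝ) ^ (∏ i, s i).primeFactors.card ≤ Real.log X ^ 19 ∧ Cln D (∏ i, s i)),
      (1 / ((∏ i, s i : ℕ) : ℝ)) * ((1 / 2) ^ (∏ i, s i).primeFactors.card *
        (((∏ i, s i).primeFactors.powerset.filter
          (fun E => ∀ o, corkS o s E ≤ K)).card : ℝ))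

/-! ### primes with two prescribed symbols -/

/-- the primes `l ≡ 1` modulo 24 of a range -/
noncomputable def rg (X : ℕ) (η : ℝ) : Finset ℕ :=
  (Ioc ⌊(X : ℝ) ^ η⌋₊ ⌊(X : ℝ) ^ (2 * η)⌋₊).filter (fun l => l.Prime ∧ l % 24 = 1)

/-- (13) large sieve -/
def S_EQL : Prop := ∀ η : ℝ, 0 < η → η < 1 → ∃ X0 : ℕ, ∀ X : ℕ, X0 ≤ X → ∀ D : Finset ℕ,
  (∀ d ∈ D, Odd d ∧ Squarefree d ∧ (d : ℝ) ≤ (X : ℝ) ^ (η / 4) ∧
    1 / 1000 < |∑ l ∈ rg X η, Jr l d / (l : ℝ)|) → (D.card : ℝ) ≤ Real.log X ^ 3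

/-- (14) Siegel-Walfisz -/
def S_EQW : Prop := ∀ η : ℝ, 0 < η → η < 1 → ∀ A : ℕ, ∃ X0 : ℕ, ∀ X : ℕ, X0 ≤ X →
  1 / 12 ≤ ∑ l ∈ rg X η, 1 / (l : ℝ) ∧
  ∀ d : ℕ, 1 < d → Squarefree d → d.Coprime 6 → (d : ℝ) ≤ Real.log X ^ A →
    |∑ l ∈ rg X η, Jr l d / (l : ℝ)| ≤ 1 / 1000

/-- (15) primes with two prescribed symbols -/
def S_EQ : Prop := ∀ η : ℝ, 0 < η → η < 1 → ∀ A : ℕ, ∃ X0 : ℕ, ∀ X : ℕ, X0 ≤ X →
  ∃ D : Finset ℕ, (∀ e ∈ D, Real.log X ^ A < (e : ℝ)) ∧ (D.card : ℝ) ≤ Real.log X ^ 3 ∧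
    ∀ S : Finset ℕ, (∀ p ∈ S, p.Prime ∧ 3 < p) → ((∏ p ∈ S, p : ℕ) : ℝ) ≤ (X : ℝ) ^ (η / 4) →
      Cln D (∏ p ∈ S, p) → ∀ T : Bool → Finset ℕ, (∀ o, (T o).Nonempty ∧ T o ⊆ S) →
      1 / 100 ≤ ∑ l ∈ (rg X η).filter (fun l : ℕ => ∀ o, ∑ p ∈ T o, nr p (l : ℤ) = 1), 1 / (l : ℝ)

/-! ### prime solutions of `A p + 4 C r = B q` -/

/-- a state: the three parts are coprime, squarefree, and prime to 6 -/
def St (s : Fin 3 → ℕ) : Prop := Squarefree (∏ i, s i) ∧ (∏ i, s i).Coprime 6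

/-- the sieve model of the von Mangoldt function (the same as `Pool.Agent.H373R2.T7.lamz`) -/
noncomputable def lmz (z n : ℕ) : ℝ :=
  if ∀ p ∈ (Icc 1 z).filter Nat.Prime, ¬ p ∣ n then
    (∏ p ∈ (Icc 1 z).filter Nat.Prime, (1 - 1 / (p : ℝ)))⁻¹ else 0

/-- the weighted number of the solutions of `s₀ p - s₁ q + 4 s₂ r = 0`
(the same as `Pool.Agent.Y883.T6.S3 (s 0) (-(s 1)) (4 * s 2) 0 P Q R f g h`) -/
noncomputable def T3 (s : Fin 3 → ℕ) (P Q R : ℕ) (f g h : ℕ → ℝ) : ℝ :=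
  ∑ x ∈ Icc 1 P, ∑ y ∈ Icc 1 Q, ∑ z ∈ Icc 1 R,
    if (s 0 : ℤ) * (x : ℕ) + (-(s 1 : ℤ)) * (y : ℕ) + (4 * (s 2 : ℤ)) * (z : ℕ) = 0 then
      f x * g y * h z else 0

/-- the sizes -/
structure Sz (X : ℕ) (s : Fin 3 → ℕ) (P Q R : ℕ) : Prop where
  p2 : ∃ k : ℕ, P = 2 ^ k
  q2 : ∃ k : ℕ, Q = 2 ^ k
  r2 : ∃ k : ℕ, R = 2 ^ k
  p1 : s 0 * P ≤ X
  p3 : X < 2 * (s 0 * P)
  q1 : s 1 * Q ≤ X
  q3 : X < 2 * (s 1 * Q)
  r1 : 4 * s 2 * R ≤ X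
  r3 : X < 2 * (4 * s 2 * R)

/-- (16) the von Mangoldt function may be replaced by its model, one variable at a time -/
def S_ANA : Prop := ∀ (ρ : ℝ) (T : ℕ), 0 < ρ → ∃ B X0 : ℕ, 2 ≤ B ∧ ∀ X : ℕ, X0 ≤ X →
  ∃ D : Finset ℕ, Sp 20 ρ X D ∧ ∀ (s : Fin 3 → ℕ) (P Q R : ℕ), St s →
    ((∏ i, s i : ℕ) : ℝ) ≤ (X : ℝ) ^ (1 / 10 : ℝ) → Cln D (∏ i, s i) → Sz X s P Q R →
    ∃ z : Fin 3 → ℕ, (∀ i, Real.log X ^ (B - 1) ≤ (z i : ℝ) ∧ (z i : ℝ) ≤ Real.log X ^ (B + 1)) ∧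
    ∀ g h : ℕ → ℝ, (∀ n, |g n| ≤ Real.log X) → (∀ n, |h n| ≤ Real.log X) →
      |T3 s P Q R (fun n => ArithmeticFunction.vonMangoldt n - lmz (z 0) n) g h| ≤
        (X : ℝ) ^ 2 / ((∏ i, s i : ℕ) : ℝ) / Real.log X ^ T ∧
      |T3 s P Q R g (fun n => ArithmeticFunction.vonMangoldt n - lmz (z 1) n) h| ≤
        (X : ℝ) ^ 2 / ((∏ i, s i : ℕ) : ℝ) / Real.log X ^ T ∧
      |T3 s P Q R g h (fun n => ArithmeticFunction.vonMangoldt n - lmz (z 2) n)| ≤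
        (X : ℝ) ^ 2 / ((∏ i, s i : ℕ) : ℝ) / Real.log X ^ T

/-- the conditions on `p` (those of the primes of `s 1` and of `s 2`, and the class) -/
def W1 (s : Fin 3 → ℕ) (E : Finset ℕ) (p : ℕ) : Prop :=
  (∀ l ∈ (s 1).primeFactors, ¬ l ∣ p ∧ nr l (-((s 0 * p : ℕ) : ℤ)) = ind E l) ∧
  (∀ l ∈ (s 2).primeFactors, ¬ l ∣ p ∧ nr l (-((s 0 * p : ℕ) : ℤ)) = ind E l) ∧
  (s 0 * p) % 48 = 7

/-- the conditions on `q` (those of the primes of `s 0`, and the class) -/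
def W2 (s : Fin 3 → ℕ) (E : Finset ℕ) (q : ℕ) : Prop :=
  (∀ l ∈ (s 0).primeFactors, ¬ l ∣ q ∧ nr l ((s 1 * q : ℕ) : ℤ) = ind E l) ∧ (s 1 * q) % 48 = 35

open Classical in
/-- (17) the model: the sum over `q`, `r` for fixed `p` -/
def S_ANB1 : Prop := ∀ B : ℕ, 2 ≤ B → ∃ c : ℝ, 0 < c ∧ ∃ X0 : ℕ, ∀ X : ℕ, X0 ≤ X →
  ∀ (s : Fin 3 → ℕ) (P Q R z : ℕ) (E : Finset ℕ), St s →
    ((∏ i, s i : ℕ) : ℝ) ≤ (X : ℝ) ^ (1 / 10 : ℝ) → Sz X s P Q R →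
    (2 : ℝ) ^ (∏ i, s i).primeFactors.card ≤ Real.log X ^ 20 →
    Real.log X ^ (B - 1) ≤ (z : ℝ) → (z : ℝ) ≤ Real.log X ^ (B + 1) →
    ∀ p : ℕ, 1 ≤ p → 4 * p ≤ P → W1 s E p → (∀ l : ℕ, l.Prime → l ≤ z → ¬ l ∣ p) →
    c * (1 / 2) ^ (s 0).primeFactors.card * (X / ((s 1 * s 2 : ℕ) : ℝ)) ≤
      ∑ q ∈ Icc 1 Q, ∑ r ∈ Icc 1 R,
        if (s 0 : ℤ) * (p : ℕ) + (-(s 1 : ℤ)) * (q : ℕ) + (4 * (s 2 : ℤ)) * (r : ℕ) = 0 then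
          (if W2 s E q then lmz z q else 0) * lmz z r else 0

open Classical in
/-- (18) the model: the sum over `p` -/
def S_ANB2 : Prop := ∀ B : ℕ, 2 ≤ B → ∃ c : ℝ, 0 < c ∧ ∃ X0 : ℕ, ∀ X : ℕ, X0 ≤ X →
  ∀ (s : Fin 3 → ℕ) (P Q R z : ℕ) (E : Finset ℕ), St s →
    ((∏ i, s i : ℕ) : ℝ) ≤ (X : ℝ) ^ (1 / 10 : ℝ) → Sz X s P Q R →
    (2 : ℝ) ^ (∏ i, s i).primeFactors.card ≤ Real.log X ^ 20 →
    Real.log X ^ (B - 1) ≤ (z : ℝ) → (z : ℝ) ≤ Real.log X ^ (B + 1) →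
    c * (1 / 2) ^ (s 1 * s 2).primeFactors.card * (X / ((s 0 : ℕ) : ℝ)) ≤
      ∑ p ∈ (Icc 1 (P / 4)).filter (fun p => W1 s E p), lmz z p

open Classical in
/-- the solutions in primes -/
noncomputable def Sol (X : ℕ) (s : Fin 3 → ℕ) (E : Finset ℕ) : Finset (ℕ × ℕ × ℕ) :=
  ((Icc 1 X) ×ˢ (Icc 1 X) ×ˢ (Icc 1 X)).filter (fun t => t.1.Prime ∧ t.2.1.Prime ∧ t.2.2.Prime ∧
    X < t.1 ^ 2 ∧ X < t.2.1 ^ 2 ∧ X < t.2.2 ^ 2 ∧ s 1 * t.2.1 ≤ X ∧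
    Gd (s 0 * t.1) (s 1 * t.2.1) (s 2 * t.2.2) ∧
    ∀ l ∈ (∏ i, s i).primeFactors, tf (s 0 * t.1) (s 1 * t.2.1) (s 2 * t.2.2) l = ind E l)

/-- (19) the number of the solutions in primes -/
def S_AN : Prop := ∀ ρ : ℝ, 0 < ρ → ∃ c : ℝ, 0 < c ∧ ∃ X0 : ℕ, ∀ X : ℕ, X0 ≤ X →
  ∃ D : Finset ℕ, Sp 20 ρ X D ∧ ∀ (s : Fin 3 → ℕ) (E : Finset ℕ), St s →
    ((∏ i, s i : ℕ) : ℝ) ≤ (X : ℝ) ^ (1 / 10 : ℝ) →
    (2 : ℝ) ^ (∏ i, s i).primeFactors.card ≤ Real.log X ^ 20 → Cln D (∏ i, s i) →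
    c * (1 / 2) ^ (∏ i, s i).primeFactors.card *
      ((X : ℝ) ^ 2 / (((∏ i, s i : ℕ) : ℝ) * Real.log X ^ 3)) ≤ ((Sol X s E).card : ℝ)

/-! ### the number of the good triples -/

open Classical in
/-- the good pairs `(u, w)` whose parts composed of the primes up to `y` are `s`, with bits `E` -/
noncomputable def Ext (X y : ℕ) (s : Fin 3 → ℕ) (E : Finset ℕ) : Finset (ℕ × ℕ) :=
  ((Icc 1 X) ×ˢ (Icc 1 X)).filter (fun t => t.1 + 4 * t.2 ≤ X ∧ Ok t.1 (t.1 + 4 * t.2) t.2 ∧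
    (∀ p : ℕ, p.Prime → p ≤ y → ((p ∣ t.1 ↔ p ∣ s 0) ∧ (p ∣ t.1 + 4 * t.2 ↔ p ∣ s 1) ∧
      (p ∣ t.2 ↔ p ∣ s 2))) ∧
    ∀ p ∈ (∏ i, s i).primeFactors, tf t.1 (t.1 + 4 * t.2) t.2 p = ind E p)

/-- (20) the induction on the coranks -/
def S_IND : Prop := ∀ (K : ℕ) (ρ : ℝ), 0 < ρ → ρ ≤ 1 / 4 → ∃ δ c : ℝ, 0 < δ ∧ δ ≤ 1 / 10 ∧ 0 < c ∧
  ∃ X0 : ℕ, ∀ X : ℕ, X0 ≤ X → ∃ D : Finset ℕ, Sp 20 ρ X D ∧ ∀ (y : ℕ) (s : Fin 3 → ℕ)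
    (E : Finset ℕ), (y : ℝ) ≤ (X : ℝ) ^ δ → s ∈ Tup (Fin 3) 3 y →
    ((∏ i, s i : ℕ) : ℝ) ≤ (X : ℝ) ^ δ →
    (2 : ℝ) ^ (∏ i, s i).primeFactors.card * 2 ^ K ≤ Real.log X ^ 20 →
    Cln D (∏ i, s i) → (∀ o, corkS o s E ≤ K) →
    c * (1 / 2) ^ (∏ i, s i).primeFactors.card *
      ((X : ℝ) ^ 2 / (((∏ i, s i : ℕ) : ℝ) * Real.log X ^ 3)) ≤ ((Ext X y s E).card : ℝ)

open Classical in
/-- (21) a positive proportion of the pairs is good -/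
def S_CNT : Prop := ∃ c : ℝ, 0 < c ∧ ∃ X0 : ℕ, ∀ X : ℕ, X0 ≤ X →
  c * (X : ℝ) ^ 2 ≤ ((((Icc 1 X) ×ˢ (Icc 1 X)).filter (fun t : ℕ × ℕ => t.1 + 4 * t.2 ≤ X ∧
    Ok t.1 (t.1 + 4 * t.2) t.2)).card : ℝ)

end Pool.Agent.L0h94.RZ
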