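import Pool.Agent.L0h94.RZ.DefsF
import Pool.Agent.L0h94.CO.Thm
import Pool.Agent.L0h94.RZ.Fin3

/-!
# Project RZ: the three orderings, for any property of curves
-/

set_option autoImplicit false

namespace Pool.Agent.L0h94.RZ

open Finset Pool.Agent.L0h94.FT Pool.Agent.L0h94.CO
open Pool.Agent.W307.RT (Sh Cv HasT LOW)

/-- a positive proportion of the curves has the property `P` -/
def MainP (P : ℤ × ℤ → Prop) [DecidablePred P] : Prop := ∃ c : ℝ, 0 < c ∧ ∃ H0 : ℕ, ∀ H : ℕ, H0 ≤ H →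
  c * ((Cv 2 H).card : ℝ) ≤ (((Cv 2 H).filter P).card : ℝ)

variable (P : ℤ × ℤ → Prop) [DecidablePred P]

/-- the members of `Cv` with the property -/
noncomputable def ZP (H : ℕ) : Finset (ℤ × ℤ) := (Cv 2 H).filter P

/-- many curves with the property -/
lemma plow (h : MainP P) : ∃ c : ℝ, 0 < c ∧ ∃ H1 : ℕ, ∀ H : ℕ, H1 ≤ H →
    c * (H : ℝ) ^ ((1 : ℝ) / 3) ≤ ((ZP P H).card : ℝ) := by
  obtain ⟨c1, hc1, H0, h1⟩ := h
  obtain ⟨c, C, T0, hc, h2⟩ := low2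
  set K : ℕ := C + 1 with hK
  have hK0 : (0 : ℝ) < K := by rw [hK]; positivity
  refine ⟨c1 * (c / (4 * (K : ℝ) ^ ((1 : ℝ) / 3))), by positivity, H0 + K * (T0 + 1) ^ 6,
    fun X hX => ?_⟩
  have h3 := h1 X (by omega)
  refine le_trans ?_ h3
  rw [mul_assoc]
  refine mul_le_mul_of_nonneg_left ?_ hc1.le
  have hXn : K * (T0 + 1) ^ 6 ≤ X := by omega
  have hXr : (K : ℝ) * (T0 + 1) ^ 6 ≤ X := by exact_mod_cast hXn
  have hX0 : (0 : ℝ) < X := lt_of_lt_of_le (by positivity) hXr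
  set T : ℕ := ⌊((X : ℝ) / K) ^ ((1 : ℝ) / 6)⌋₊ with hT
  have hXK : 0 ≤ (X : ℝ) / K := by positivity
  have hT1 : T0 + 1 ≤ T := by
    rw [hT]
    apply Nat.le_floor
    push_cast
    have h1 : ((T0 : ℝ) + 1) ^ 6 ≤ (X : ℝ) / K := by
      rw [le_div_iff₀ hK0]
      linarith
    have h2 := Real.rpow_le_rpow (by positivity) h1 (by norm_num : (0 : ℝ) ≤ 1 / 6)
    rwa [← Real.rpow_natCast, ← Real.rpow_mul (by positivity),
      show ((6 : ℕ) : ℝ) * (1 / 6) = 1 by norm_num, Real.rpow_one] at h2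
  have hTle : (T : ℝ) ^ 6 ≤ (X : ℝ) / K := by
    have h1 : (T : ℝ) ≤ ((X : ℝ) / K) ^ ((1 : ℝ) / 6) := Nat.floor_le (by positivity)
    have h2 := pow_le_pow_left₀ (Nat.cast_nonneg _) h1 6
    rwa [← Real.rpow_natCast (((X : ℝ) / K) ^ ((1 : ℝ) / 6)) 6, ← Real.rpow_mul hXK,
      show (1 / 6 : ℝ) * ((6 : ℕ) : ℝ) = 1 by norm_num, Real.rpow_one] at h2
  have hH : C * T ^ 6 ≤ X := by
    have h1 : (T : ℝ) ^ 6 * K ≤ X := by
      rwa [le_div_iff₀ hK0] at hTle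
    have h2 : T ^ 6 * K ≤ X := by exact_mod_cast h1
    refine le_trans ?_ h2
    rw [hK]
    nlinarith [Nat.zero_le (T ^ 6)]
  have h1 := h2 T X (by omega) hH
  refine le_trans ?_ h1
  have h3 : ((X : ℝ) / K) ^ ((1 : ℝ) / 6) ≤ 2 * T := by
    have h4 : ((X : ℝ) / K) ^ ((1 : ℝ) / 6) < T + 1 := Nat.lt_floor_add_one _
    have h5 : (1 : ℝ) ≤ T := by exact_mod_cast (by omega : 1 ≤ T)
    linarith
  have h4 : (((X : ℝ) / K) ^ ((1 : ℝ) / 6)) ^ 2 ≤ (2 * (T : ℝ)) ^ 2 :=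
    pow_le_pow_left₀ (by positivity) h3 2
  have h5 : (((X : ℝ) / K) ^ ((1 : ℝ) / 6)) ^ 2 =
      (X : ℝ) ^ ((1 : ℝ) / 3) / (K : ℝ) ^ ((1 : ℝ) / 3) := by
    rw [← Real.rpow_natCast, ← Real.rpow_mul hXK, ← Real.div_rpow hX0.le hK0.le]
    norm_num
  rw [h5] at h4
  have h6 : c / (4 * (K : ℝ) ^ ((1 : ℝ) / 3)) * (X : ℝ) ^ ((1 : ℝ) / 3) =
      c / 4 * ((X : ℝ) ^ ((1 : ℝ) / 3) / (K : ℝ) ^ ((1 : ℝ) / 3)) := by
    field_simp
  rw [h6]
  calc c / 4 * ((X : ℝ) ^ ((1 : ℝ) / 3) / (K : ℝ) ^ ((1 : ℝ) / 3)) ≤ c / 4 * (2 * (T : ℝ)) ^ 2 :=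
        mul_le_mul_of_nonneg_left h4 (by positivity)
    _ = c * (T : ℝ) ^ 2 := by ring

/-- inclusion of the curves with the property -/
lemma zp_le {I : ℤ × ℤ → ℕ} {X H : ℕ} (hfin : (Fam I X).Finite)
    (hI : ∀ t ∈ Cv 2 H, I t ≤ X) :
    ((ZP P H).card : ℝ) ≤ (({t | t ∈ Fam I X ∧ P t} : Set (ℤ × ℤ)).ncard : ℝ) := by
  rw [← Set.ncard_coe_finset]
  refine Nat.cast_le.2 (Set.ncard_le_ncard ?_ (hfin.subset fun t ht => ht.1))
  intro t ht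
  obtain ⟨h1, h2⟩ := mem_filter.1 (mem_coe.1 ht)
  obtain ⟨a1, a2, -⟩ := cv_fam h1
  exact ⟨⟨a1, a2, hI t h1⟩, h2⟩

/-- **The three orderings** -/
theorem fin3P (h : MainP P) : ∃ c : ℝ, 0 < c ∧ ∃ X0 : ℝ,
    (∀ f, Factor f → ∀ X : ℕ, X0 ≤ (X : ℝ) → c * ((Fam (Con f) X).ncard : ℝ) ≤
      (({t | t ∈ Fam (Con f) X ∧ P t} : Set (ℤ × ℤ)).ncard : ℝ)) ∧
    (∀ X : ℕ, X0 ≤ (X : ℝ) → c * ((Fam mD X).ncard : ℝ) ≤
      (({t | t ∈ Fam mD X ∧ P t} : Set (ℤ × ℤ)).ncard : ℝ)) ∧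
    (∀ X : ℕ, X0 ≤ (X : ℝ) → c * ((Fam height X).ncard : ℝ) ≤
      (({t | t ∈ Fam height X ∧ P t} : Set (ℤ × ℤ)).ncard : ℝ)) := by
  obtain ⟨c0, hc0, H1, h0⟩ := plow P h
  obtain ⟨d1, ⟨cd, Cd, Xd, -, -, hd⟩, -⟩ := thmD
  obtain ⟨h1, ⟨ch, Ch, Xh, -, -, hh⟩, -⟩ := thmH
  obtain ⟨cc, Cc, Xc, -, hcc⟩ := cntC
  have hfinC : ∀ f, Factor f → ∀ X : ℕ, (Fam (Con f) X).Finite := by
    obtain ⟨C, hC⟩ := thmC one_pos (by norm_num)
    exact fun f hf X => (hC f hf X).1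
  set C : ℝ := |Cd| + |Ch| + |Cc| + 1 with hC
  have e1 := le_abs_self Cd
  have e2 := le_abs_self Ch
  have e3 := le_abs_self Cc
  have e4 := abs_nonneg Cd
  have e5 := abs_nonneg Ch
  have e6 := abs_nonneg Cc
  have hC0 : 0 < C := by linarith
  set a1 : ℝ := (1 / 124416) ^ 2 with ha1
  refine ⟨min (c0 * ((1 / 124416 : ℝ) ^ ((2 : ℝ) / 3)) / C)
    (min (c0 * ((1 / 32 : ℝ) ^ ((1 : ℝ) / 3)) / C) (c0 * ((1 : ℝ) ^ ((1 : ℝ) / 3)) / C)),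
    by positivity, max (max Xd Xh) (max Xc (124416 * ((H1 : ℝ) + 32))), ?_, ?_, ?_⟩
  · intro f hf X hX
    have hX1 : Xc ≤ (X : ℝ) := ((le_max_left _ _).trans (le_max_right _ _)).trans hX
    have hX2 : 124416 * ((H1 : ℝ) + 32) ≤ (X : ℝ) :=
      ((le_max_right _ _).trans (le_max_right _ _)).trans hX
    have hX3 : 124416 * (H1 + 32) ≤ X := by exact_mod_cast hX2
    clear hX2
    have hn := (hcc f hf X hX1).2
    have hn' : ((Fam (Con f) X).ncard : ℝ) ≤ C * (X : ℝ) ^ ((2 : ℝ) / 3) :=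
      hn.trans (mul_le_mul_of_nonneg_right (by linarith) (by positivity))
    obtain ⟨Y, hY⟩ : ∃ Y, Y = X / 62208 := ⟨_, rfl⟩
    have hY9 : H1 + 32 ≤ Y := by omega
    have hY1 : H1 ≤ Y ^ 2 := (by omega : H1 ≤ Y).trans (Nat.le_self_pow two_ne_zero Y)
    have hYr : (1 / 124416) * (X : ℝ) ≤ Y := by
      have h7 : X ≤ 124416 * Y := by omega
      have h8 : (X : ℝ) ≤ 124416 * Y := by exact_mod_cast h7
      linarith
    have h5 := h0 (Y ^ 2) hY1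
    have h6 : c0 * ((Y : ℝ)) ^ ((2 : ℝ) / 3) ≤ ((ZP P (Y ^ 2)).card : ℝ) := by
      refine le_trans (le_of_eq ?_) h5
      push_cast
      rw [← Real.rpow_natCast (Y : ℝ) 2, ← Real.rpow_mul (Nat.cast_nonneg _)]
      norm_num
    have h7 := pw hc0 hC0 (by norm_num : (0 : ℝ) ≤ 2 / 3) (Nat.cast_nonneg X)
      (by norm_num : (0 : ℝ) < 1 / 124416) hYr hn'
    have h8 := zp_le P (I := Con f) (X := X) (H := Y ^ 2) (hfinC f hf X) (by
      intro t ht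
      obtain ⟨b1, b2, b3⟩ := cv_fam ht
      have b4 := Dq b1 b2
      have b5 : (Cond6 t.1 t.2 : ℝ) ^ 2 ≤ height t := b4.1.trans (by exact_mod_cast b4.2)
      have b6 : Cond6 t.1 t.2 ^ 2 ≤ Y ^ 2 := by
        have : Cond6 t.1 t.2 ^ 2 ≤ height t := by exact_mod_cast b5
        exact this.trans b3
      have b7 : Cond6 t.1 t.2 ≤ Y := (Nat.pow_le_pow_iff_left two_ne_zero).1 b6
      have b8 := (hf t).2
      unfold Pool.Agent.L0h94.CO.Con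
      calc f t * Cond6 t.1 t.2 ≤ 62208 * Y := Nat.mul_le_mul (by norm_num at b8; exact b8) b7
        _ ≤ X := by rw [hY]; exact Nat.mul_div_le _ _)
    calc _ ≤ (c0 * ((1 / 124416 : ℝ) ^ ((2 : ℝ) / 3)) / C) * ((Fam (Con f) X).ncard : ℝ) :=
          mul_le_mul_of_nonneg_right (min_le_left _ _) (Nat.cast_nonneg _)
      _ ≤ c0 * ((Y : ℝ)) ^ ((2 : ℝ) / 3) := h7
      _ ≤ _ := h6.trans h8
  · intro X hX
    have hX1 : Xd ≤ (X : ℝ) := ((le_max_left _ _).trans (le_max_left _ _)).trans hX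
    have hX2 : 124416 * ((H1 : ℝ) + 32) ≤ (X : ℝ) :=
      ((le_max_right _ _).trans (le_max_right _ _)).trans hX
    have hX3 : 124416 * (H1 + 32) ≤ X := by exact_mod_cast hX2
    have hn := (hd X hX1).2
    have hn' : ((Fam mD X).ncard : ℝ) ≤ C * (X : ℝ) ^ ((1 : ℝ) / 3) :=
      hn.trans (mul_le_mul_of_nonneg_right (by linarith) (by positivity))
    set Y : ℕ := X / 16 with hY
    have hY1 : H1 ≤ Y := by
      rw [hY, Nat.le_div_iff_mul_le (by norm_num)]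
      omega
    have hYr : (1 / 32) * (X : ℝ) ≤ Y := by
      have h7 : X ≤ 32 * Y := by omega
      have h8 : (X : ℝ) ≤ 32 * Y := by exact_mod_cast h7
      linarith
    have h5 := h0 Y hY1
    have h7 := pw hc0 hC0 (by norm_num : (0 : ℝ) ≤ 1 / 3) (Nat.cast_nonneg X)
      (by norm_num : (0 : ℝ) < 1 / 32) hYr hn'
    have h8 := zp_le P (I := mD) (X := X) (H := Y) (d1 X) (by
      intro t ht
      obtain ⟨b1, b2, b3⟩ := cv_fam ht
      calc mD t ≤ 16 * height t := mD_height b1 b2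
        _ ≤ 16 * Y := Nat.mul_le_mul_left _ b3
        _ ≤ X := Nat.mul_div_le _ _)
    calc _ ≤ (c0 * ((1 / 32 : ℝ) ^ ((1 : ℝ) / 3)) / C) * ((Fam mD X).ncard : ℝ) :=
          mul_le_mul_of_nonneg_right ((min_le_right _ _).trans (min_le_left _ _))
            (Nat.cast_nonneg _)
      _ ≤ c0 * ((Y : ℝ)) ^ ((1 : ℝ) / 3) := h7
      _ ≤ _ := h5.trans h8
  · intro X hX
    have hX1 : Xh ≤ (X : ℝ) := ((le_max_right _ _).trans (le_max_left _ _)).trans hX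
    have hX2 : 124416 * ((H1 : ℝ) + 32) ≤ (X : ℝ) :=
      ((le_max_right _ _).trans (le_max_right _ _)).trans hX
    have hX3 : 124416 * (H1 + 32) ≤ X := by exact_mod_cast hX2
    have hn := (hh X hX1).2
    have hn' : ((Fam height X).ncard : ℝ) ≤ C * (X : ℝ) ^ ((1 : ℝ) / 3) :=
      hn.trans (mul_le_mul_of_nonneg_right (by linarith) (by positivity))
    have h5 := h0 X (by omega)
    have h7 := pw hc0 hC0 (by norm_num : (0 : ℝ) ≤ 1 / 3) (Nat.cast_nonneg X)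
      (by norm_num : (0 : ℝ) < 1) (by rw [one_mul] : (1 : ℝ) * (X : ℝ) ≤ X) hn'
    have h8 := zp_le P (I := height) (X := X) (H := X) (h1 X) (fun t ht => (cv_fam ht).2.2)
    calc _ ≤ (c0 * ((1 : ℝ) ^ ((1 : ℝ) / 3)) / C) * ((Fam height X).ncard : ℝ) :=
          mul_le_mul_of_nonneg_right ((min_le_right _ _).trans (min_le_right _ _))
            (Nat.cast_nonneg _)
      _ ≤ c0 * ((X : ℝ)) ^ ((1 : ℝ) / 3) := h7
      _ ≤ _ := h5.trans h8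

end Pool.Agent.L0h94.RZ
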