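import Mathlib
import Pool.Agent.Q286.EQ.MW

/-!
# Rank 0 means: the group of rational points is finite
-/

set_option autoImplicit false

namespace Pool.Agent.L0h94.RZ

/-- rank 0 means that there are only finitely many rational points -/
theorem finite_of_rank_zero (W : WeierstrassCurve ℚ) (hΔ : W.Δ ≠ 0)
    (h0 : Module.finrank ℤ W.toAffine.Point = 0) : Finite W.toAffine.Point := by
  have hFG : AddGroup.FG W.toAffine.Point := Pool.Agent.Q286.EQ.mordell_weil ℚ W hΔ
  have hf : Module.Finite ℤ W.toAffine.Point := Module.Finite.iff_addGroup_fg.2 hFG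
  have ht : Module.IsTorsion ℤ W.toAffine.Point := by
    rw [← Module.finrank_eq_zero_iff_isTorsion]
    exact h0
  exact Module.finite_of_fg_torsion _ ht

end Pool.Agent.L0h94.RZ
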