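import Pool.Agent.L0h94.RZ.Main2a
import Pool.Agent.L0h81.RZ.Km
import Pool.Agent.L0h81.RZ.Sha

/-!
# Project RZ, second part: assembly
-/

set_option autoImplicit false

namespace Pool.Agent.L0h94.RZ

theorem m_main2 : S_MAIN2 :=
  m_main2_of (sha_of km Pool.Agent.L0h19.RZ.L2.l2 Pool.Agent.L0h61.RZ.lpq
    Pool.Agent.LLead.RZ.lr Pool.Agent.L0h53.RZ.ker Pool.Agent.L0h55.RZ.t4
    Pool.Agent.L0h55.RZ.dv)

end Pool.Agent.L0h94.RZ
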