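import Pool.Agent.L0h94.FT.Par
import Pool.Agent.L0h94.RZ.Defs

/-!
# Project RZ: statements of the last parts (the curves)
-/

set_option autoImplicit false

namespace Pool.Agent.L0h94.RZ

open Finset Pool.Agent.W262.RK Pool.Agent.W307.RT

/-- (22) the curves of a good triple are in the family -/
def S_CRV : Prop := ∀ (o : Bool) (u b w H : ℕ), Gd u b w → b ^ 6 ≤ H →
  ∃ c ∈ Cv 2 H, Pool.Agent.L0h94.FT.Rl c ((mo o u w).toNat, ((b : ℤ) - mo o u w).toNat)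

/-- (23) a curve determines the differences of its roots -/
def S_RLI : Prop := ∀ (c : ℤ × ℤ) (d d' : ℕ × ℕ), Pool.Agent.L0h94.FT.Rl c d →
  Pool.Agent.L0h94.FT.Rl c d' → d = d'

/-- (24) upper bound for the number of the curves -/
def S_UP : Prop := ∃ C : ℝ, 0 < C ∧ ∀ H : ℕ, 1 ≤ H → ((Cv 2 H).card : ℝ) ≤ C * (H : ℝ) ^ (1 / 3 : ℝ)

open Classical in
/-- (25) a positive proportion of the curves has rank 0 -/
def S_MAIN : Prop := ∃ c : ℝ, 0 < c ∧ ∃ H0 : ℕ, ∀ H : ℕ, H0 ≤ H →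
  c * ((Cv 2 H).card : ℝ) ≤ (((Cv 2 H).filter (fun t : ℤ × ℤ =>
    Module.finrank ℤ (Sh t.1 t.2).toAffine.Point = 0)).card : ℝ)

end Pool.Agent.L0h94.RZ
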