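import Pool.Agent.L0h94.RZ.DefsF
import Pool.Agent.TH841.SH.Loc
import Pool.Agent.TH841.SH.Defs

/-!
# Project RZ, second part: the Tate-Shafarevich groups. Statements (paper proofs: docs `RS_*`)
-/

set_option autoImplicit false

namespace Pool.Agent.L0h94.RZ

open Finset Pool.Agent.W262.RK WeierstrassCurve
open Pool.Agent.W262.SH (QB Pt act IsCoc IsCob LocTriv shaCoc cob Sha)
open Pool.Agent.TH841.SH (IsR IsX EvLoc selHom)

open scoped Classical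

/-- there is a point over `K` in the square classes `e1`, `e2` -/
def LSq (K : Type) [Field K] (m b e1 e2 : ℤ) : Prop := ∃ x y : K, y ≠ 0 ∧
  y ^ 2 = x * (x - (m : K)) * (x - (b : K)) ∧ IsSquare (x * (e1 : K)) ∧
    IsSquare ((x - (m : K)) * (e2 : K))

/-- (S1) the square classes of a Selmer homomorphism; local points -/
def S_KM : Prop := ∀ m b : ℤ, m ≠ 0 → b ≠ 0 → m ≠ b → ∀ h ∈ selHom (EAB m b),
  ∃ e1 e2 : ℤ, Squarefree e1 ∧ Squarefree e2 ∧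
    (∀ s : QB, s ^ 2 = (e1 : QB) → ∀ σ : QB ≃ₐ[ℚ] QB,
      σ s = s ↔ IsX ((EAB m b).baseChange QB) 0 (h σ)) ∧
    (∀ s : QB, s ^ 2 = (e2 : QB) → ∀ σ : QB ≃ₐ[ℚ] QB,
      σ s = s ↔ IsX ((EAB m b).baseChange QB) (m : QB) (h σ)) ∧
    (∀ (p : ℕ) [Fact p.Prime], LSq ℚ_[p] m b e1 e2) ∧ LSq ℝ m b e1 e2

/-- (S2) the local conditions at 2, for points over `ℚ₂` (compare `S_LOC2`) -/
def S_L2 : Prop := ∀ (o : Bool) (u b w : ℕ), Gd u b w → ∀ e1 e2 e3 : ℤ, Squarefree e1 →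
  Squarefree e2 → Squarefree e3 → IsSquare (e1 * e2 * e3) → LSq ℚ_[2] (mo o u w) b e1 e2 →
  Odd e1 ∧ Odd e2 ∧ Odd e3 ∧ e3 % 4 = 1

/-- (S3) the local conditions at the odd primes, for points over `ℚ_p` (compare `S_LOCP`) -/
def S_LPQ : Prop := ∀ (o : Bool) (u b w : ℕ), Gd u b w → ∀ e1 e2 e3 : ℤ, Squarefree e1 →
  Squarefree e2 → Squarefree e3 → IsSquare (e1 * e2 * e3) →
  (∀ (p : ℕ) [Fact p.Prime], p ≠ 2 → LSq ℚ_[p] (mo o u w) b e1 e2) → LP o u b w e1 e2 e3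

/-- (S4) the condition at infinity -/
def S_LR : Prop := ∀ (o : Bool) (u b w : ℕ), Gd u b w → ∀ e1 e2 e3 : ℤ, e1 * e2 * e3 ≠ 0 →
  IsSquare (e1 * e2 * e3) → LSq ℝ (mo o u w) b e1 e2 → 0 < e1 ∧ 0 < e2 * e3

/-- (S5) the four torsion points give four different Selmer homomorphisms that are coboundaries -/
def S_T4 : Prop := ∀ (o : Bool) (u b w : ℕ), Gd u b w →
  ∃ g : Fin 4 → ((QB ≃ₐ[ℚ] QB) → Pt (EAB (mo o u w) b) QB), Function.Injective g ∧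
    ∀ i, g i ∈ selHom (EAB (mo o u w) b) ∧ IsCob (EAB (mo o u w) b) (g i)

/-- (S6) a class killed by 2 is the class of a Selmer homomorphism -/
def S_DV : Prop := ∀ m b : ℤ, m ≠ 0 → b ≠ 0 → m ≠ b → ∀ f ∈ shaCoc (EAB m b),
  IsCob (EAB m b) (f + f) → ∃ h ∈ selHom (EAB m b), IsCob (EAB m b) (f - h)

/-- no elements of order two -/
def No2 (W : WeierstrassCurve ℚ) : Prop := ∀ c : Sha W, c + c = 0 → c = 0

/-- (S7) if the corank is at most 2 then `Ш` has no elements of order two -/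
def S_SHA : Prop := ∀ (o : Bool) (u b w : ℕ), Gd u b w →
  cork o (u * b * w).primeFactors (clf u b) (tf u b w) ≤ 2 → No2 (EAB (mo o u w) b)

/-- (S8) one of the two curves has rank 0 and `Ш[2] = 0` -/
def S_ZS : Prop := ∀ (u b w : ℕ), Ok u b w →
  ∃ o, Module.finrank ℤ (EAB (mo o u w) b).toAffine.Point = 0 ∧ No2 (EAB (mo o u w) b)

/-- (S9) transfer to the minimal model -/
def S_TR : Prop := ∀ (c : ℤ × ℤ) (d : ℕ × ℕ), Pool.Agent.L0h94.FT.Rl c d →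
  No2 (EAB (d.1 : ℤ) ((d.1 : ℤ) + d.2)) → No2 (Pool.Agent.W307.RT.Sh c.1 c.2)

open Pool.Agent.W307.RT in
/-- (S10) a positive proportion of the curves has rank 0 and `Ш[2] = 0` -/
def S_MAIN2 : Prop := ∃ c : ℝ, 0 < c ∧ ∃ H0 : ℕ, ∀ H : ℕ, H0 ≤ H →
  c * ((Cv 2 H).card : ℝ) ≤ (((Cv 2 H).filter (fun t : ℤ × ℤ =>
    Module.finrank ℤ (Sh t.1 t.2).toAffine.Point = 0 ∧ No2 (Sh t.1 t.2))).card : ℝ)

end Pool.Agent.L0h94.RZ
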