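import Pool.Agent.L0h94.RZ.Zero
import Pool.Agent.L0h94.RZ.Fin3
import Pool.Agent.L0h53.RZ.Ker
import Pool.Agent.L0h44.RZ.Ana
import Pool.Agent.L0h82.RZ.CRV
import Pool.Agent.L0h52.RZ.Anb1
import Pool.Agent.L0h52.RZ.Anb2
import Pool.Agent.L0h64.RZ.Eqw
import Pool.Agent.L0h44.RZ.An
import Pool.Agent.LLead.RZ.Rli
import Pool.Agent.L0h59.RZ.Steer
import Pool.Agent.L0h93.RZ.Eql
import Pool.Agent.L0h19.RZ.Cnt
import Pool.Agent.L0h71.RZ.Sym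
import Pool.Agent.L0h53.RZ.Rows
import Pool.Agent.L0h93.RZ.Eq
import Pool.Agent.L0h19.RZ.Fin
import Pool.Agent.L0h47.RZ.LOCP
import Pool.Agent.L0h71.RZ.Grp
import Pool.Agent.L0h61.RZ.Loc2
import Pool.Agent.L0h3.RZ.Ind
import Pool.Agent.L0h93.RZ.Sm
import Pool.Agent.L0h51.RZ.Avg
import Pool.Agent.L0h54.RZ.Mass
import Pool.Agent.L0h47.RZ.DESC

/-!
# Project RZ: assembly
-/

set_option autoImplicit false

namespace Pool.Agent.L0h94.RZ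

theorem m_desc : S_DESC :=
  Pool.Agent.L0h47.RZ.desc Pool.Agent.L0h61.RZ.loc2 Pool.Agent.L0h47.RZ.locp
    Pool.Agent.L0h53.RZ.ker Pool.Agent.L0h71.RZ.grp

theorem m_zero : S_ZERO :=
  zero m_desc Pool.Agent.L0h53.RZ.rows Pool.Agent.L0h71.RZ.sym

theorem m_mass : S_MASS :=
  Pool.Agent.L0h54.RZ.mass (Pool.Agent.L0h93.RZ.sm Pool.Agent.L0h51.RZ.avg)

theorem m_eq : S_EQ :=
  Pool.Agent.L0h93.RZ.eq_of Pool.Agent.L0h93.RZ.eql Pool.Agent.L0h64.RZ.eqw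

theorem m_an : S_AN :=
  Pool.Agent.L0h44.RZ.an_of Pool.Agent.L0h44.RZ.ana Pool.Agent.L0h52.RZ.anb1
    Pool.Agent.L0h52.RZ.anb2

theorem m_ind : S_IND := ind_of Pool.Agent.L0h59.RZ.steer m_eq m_an

theorem m_cnt : S_CNT := cnt m_mass m_ind

theorem m_main : S_MAIN :=
  fin crv Pool.Agent.LLead.RZ.rli Pool.Agent.LLead.RZ.up m_zero m_cnt

end Pool.Agent.L0h94.RZ
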