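import Pool.Agent.L0h94.RZ.Bas

/-!
# Project RZ: one of the two curves has rank 0
-/

set_option autoImplicit false

namespace Pool.Agent.L0h94.RZ

open Finset Pool.Agent.W262.RK

/-- a sum over the primes by classes -/
lemma sum_classes {u b w : ℕ} (f : ℕ → ZMod 2) :
    ∑ q ∈ (u * b * w).primeFactors, f q =
      ∑ χ : Fin 3, ∑ q ∈ (u * b * w).primeFactors.filter (fun q => clf u b q = χ), f q := by
  rw [← sum_fiberwise (s := (u * b * w).primeFactors) (g := fun q => clf u b q) (f := f)]

lemma row_sum (hR : S_ROWS) {o : Bool} {u b w : ℕ} (g : Gd u b w) {p : ℕ}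
    (hp : p ∈ (u * b * w).primeFactors) :
    ∑ q ∈ (u * b * w).primeFactors, en o (clf u b) (tf u b w) p q =
      en o (clf u b) (tf u b w) p p := by
  rw [sum_classes, sum_congr rfl fun χ _ => hR o u b w g χ p hp, sum_const, card_univ,
    Fintype.card_fin]
  generalize en o (clf u b) (tf u b w) p p = x
  revert x
  decide

lemma lam_total {u b w : ℕ} (g : Gd u b w) : ∑ q ∈ (u * b * w).primeFactors, lam q = 1 := by
  rw [sum_classes, Fin.sum_univ_three, g.cl0, g.cl1, g.cl2, lam_sum g.squ g.ou,
    lam_sum g.sqb g.ob, lam_sum g.sqw g.ow, if_pos g.u4, if_pos g.b4, if_pos g.w4]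
  decide

/-- the parities of the two coranks are different -/
lemma par (hR : S_ROWS) (hS : S_SYM) {u b w : ℕ} (g : Gd u b w) :
    ((cork false (u * b * w).primeFactors (clf u b) (tf u b w) +
      cork true (u * b * w).primeFactors (clf u b) (tf u b w) : ℕ) : ZMod 2) = 1 := by
  have key : ∀ o, ((cork o (u * b * w).primeFactors (clf u b) (tf u b w) : ℕ) : ZMod 2) =
      ((u * b * w).primeFactors.card : ZMod 2) +
        ∑ p ∈ (u * b * w).primeFactors, en o (clf u b) (tf u b w) p p := fun o =>
    hS _ _ (fun p _ q _ => en_symm _ _ _ _ _) (fun p hp => row_sum hR g hp)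
  have h1 : ∀ p, en false (clf u b) (tf u b w) p p = tf u b w p := fun p => by
    unfold en; simp
  have h2 : ∀ p, en true (clf u b) (tf u b w) p p = tf u b w p + lam p := fun p => by
    unfold en; simp
  rw [Nat.cast_add, key false, key true, sum_congr rfl fun p _ => h1 p,
    sum_congr rfl fun p _ => h2 p, sum_add_distrib, lam_total g]
  generalize ((u * b * w).primeFactors.card : ZMod 2) = x
  generalize ∑ p ∈ (u * b * w).primeFactors, tf u b w p = y
  revert x y
  decide

/-- deleting three rows and columns reduces the corank by at most 3 -/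
lemma lin3 {S : Finset ℕ} {e : ℕ → ℕ → ZMod 2} {p q r : ℕ}
    (h : Module.finrank (ZMod 2) (KerE (S \ {p, q, r}) e) = 0) :
    Module.finrank (ZMod 2) (KerE S e) ≤ 3 := by
  have hfin : ∀ S : Finset ℕ, Module.Finite (ZMod 2) (KerE S e) := by
    intro S
    let φ : KerE S e →ₗ[ZMod 2] (S → ZMod 2) :=
      { toFun := fun v s => (v : ℕ → ZMod 2) s
        map_add' := fun _ _ => rfl
        map_smul' := fun _ _ => rfl }
    have hφ : Function.Injective φ := by
      intro v v' hv
      apply Subtype.ext
      funext n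
      by_cases hn : n ∈ S
      · exact congrFun hv ⟨n, hn⟩
      · rw [v.2.1 n hn, v'.2.1 n hn]
    exact Module.Finite.of_injective φ hφ
  have hbot : KerE (S \ {p, q, r}) e = ⊥ := by
    haveI := hfin (S \ {p, q, r})
    exact Submodule.finrank_eq_zero.1 h
  let φ : KerE S e →ₗ[ZMod 2] (Fin 3 → ZMod 2) :=
    { toFun := fun v => ![(v : ℕ → ZMod 2) p, (v : ℕ → ZMod 2) q, (v : ℕ → ZMod 2) r]
      map_add' := fun v v' => by
        funext i
        fin_cases i <;> rfl
      map_smul' := fun c v => by
        funext i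
        fin_cases i <;> rfl }
  have hφ : Function.Injective φ := by
    rw [← LinearMap.ker_eq_bot, LinearMap.ker_eq_bot']
    intro v hv
    have h0 : (v : ℕ → ZMod 2) p = 0 := congrFun hv 0
    have h1 : (v : ℕ → ZMod 2) q = 0 := congrFun hv 1
    have h2 : (v : ℕ → ZMod 2) r = 0 := congrFun hv 2
    have hz : ∀ x ∈ ({p, q, r} : Finset ℕ), (v : ℕ → ZMod 2) x = 0 := by
      intro x hx
      rw [mem_insert, mem_insert, mem_singleton] at hx
      rcases hx with rfl | rfl | rfl
      · exact h0
      · exact h1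
      · exact h2
    have hm : (v : ℕ → ZMod 2) ∈ KerE (S \ {p, q, r}) e := by
      refine ⟨fun x hx => ?_, fun x hx => ?_⟩
      · by_cases h3 : x ∈ S
        · apply hz
          by_contra h4
          exact hx (mem_sdiff.2 ⟨h3, h4⟩)
        · exact v.2.1 x h3
      · rw [← v.2.2 x (mem_sdiff.1 hx).1]
        apply sum_subset sdiff_subset
        intro y hy hy'
        rw [hz y, mul_zero]
        by_contra h4
        exact hy' (mem_sdiff.2 ⟨hy, h4⟩)
    rw [hbot] at hm
    exact Subtype.ext ((Submodule.mem_bot _).1 hm)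
  have h4 := LinearMap.finrank_le_finrank_of_injective hφ
  rw [Module.finrank_fin_fun] at h4
  exact h4

theorem zero (hD : S_DESC) (hR : S_ROWS) (hS : S_SYM) : S_ZERO := by
  rintro u b w ⟨g, p, q, r, -, -, -, -, -, -, hc⟩
  by_contra hcon
  push Not at hcon
  have h3 : ∀ o, cork o (u * b * w).primeFactors (clf u b) (tf u b w) = 3 := fun o =>
    le_antisymm (lin3 (hc o)) (hD o u b w g (hcon o))
  have h := par hR hS g
  rw [h3 false, h3 true] at h
  exact absurd h (by decide)

end Pool.Agent.L0h94.RZ
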