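import Pool.Agent.L0h94.RZ.Main
import Pool.Agent.L0h94.RZ.DefsS
import Pool.Agent.L0h61.RZ.Lpq
import Pool.Agent.L0h55.RZ.T4
import Pool.Agent.L0h55.RZ.DV
import Pool.Agent.LLead.RZ.Lr
import Pool.Agent.L0h19.RZ.L2
import Pool.Agent.Y700.ShaVC

/-!
# Project RZ, second part: assembly
-/

set_option autoImplicit false

namespace Pool.Agent.L0h94.RZ

/-- everything except the module SHA -/
theorem m_main2_of (h : S_SHA) : S_MAIN2 :=
  Pool.Agent.LLead.RZ.main2 crv Pool.Agent.LLead.RZ.rli Pool.Agent.LLead.RZ.up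
    (Pool.Agent.LLead.RZ.zs m_desc Pool.Agent.L0h53.RZ.rows Pool.Agent.L0h71.RZ.sym h)
    Pool.Agent.LLead.RZ.tr m_cnt

end Pool.Agent.L0h94.RZ
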